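import Pool.Agent.H90.SK.Ex
import Pool.Agent.H90.SK.Pol
import Pool.Graph.R_seed8.H560R3.GB.Defs

/-! # The pair `n`, `t - m n` -/

set_option autoImplicit false

namespace Pool.Agent.H90.GB

open Finset Polynomial Filter Topology Pool.Agent.H90.SK

/-- the pair -/
noncomputable def pr (t m : ℕ) : Fin 2 → ℤ[X] := ![X, C (t : ℤ) - C (m : ℤ) * X]

theorem pr0 (t m : ℕ) (n : ℤ) : (pr t m 0).eval n = n := by simp [pr]

theorem pr1 (t m : ℕ) (n : ℤ) : (pr t m 1).eval n = t - m * n := by simp [pr]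

theorem deg0 (t m : ℕ) : (pr t m 0).natDegree = 1 := by simp [pr]

theorem deg1 {t m : ℕ} (hm : 1 ≤ m) : (pr t m 1).natDegree = 1 := by
  have hm0 : (-(m : ℤ)) ≠ 0 := by
    rw [neg_ne_zero]
    exact_mod_cast (by omega : m ≠ 0)
  have : pr t m 1 = C (-(m : ℤ)) * X + C (t : ℤ) := by
    simp [pr]
    ring
  rw [this]
  exact natDegree_linear hm0

theorem deg_pos {t m : ℕ} (hm : 1 ≤ m) (i : Fin 2) : 1 ≤ (pr t m i).natDegree := by
  fin_cases i
  · exact (deg0 t m).ge
  · exact (deg1 hm).ge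

theorem deg_sum {t m : ℕ} (hm : 1 ≤ m) : ∑ i, (pr t m i).natDegree ≤ 2 := by
  rw [Fin.sum_univ_two, deg0, deg1 hm]

/-- no fixed prime divisor -/
def NF (t m : ℕ) : Prop := ∀ p : ℕ, p.Prime → ∃ n : ℤ, ¬ (p : ℤ) ∣ n * (t - m * n)

theorem mem_om (t m : ℕ) {p : ℕ} (hp : 0 < p) (n : ℕ) :
    n % p ∈ omP (pr t m) p ↔ p ∣ n ∨ (p : ℤ) ∣ (t : ℤ) - m * n := by
  rw [mem_omP _ hp]
  constructor
  · rintro ⟨i, hi⟩
    fin_cases i
    · left
      have : (p : ℤ) ∣ (n : ℤ) := by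
        have h := pr0 t m n
        simp only [Fin.zero_eta] at hi
        rwa [h] at hi
      exact_mod_cast this
    · right
      have h := pr1 t m n
      simp only [Fin.mk_one] at hi
      rwa [h] at hi
  · rintro (h | h)
    · exact ⟨0, by rw [pr0]; exact_mod_cast h⟩
    · exact ⟨1, by rw [pr1]; exact h⟩

theorem noFix {t m : ℕ} (h : NF t m) : NoFix (pr t m) := by
  intro p hp
  obtain ⟨n, hn⟩ := h p hp
  have hp0 : (0 : ℤ) < p := by exact_mod_cast hp.pos
  refine ⟨(n % p).toNat, fun i hi => hn ?_⟩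
  have h1 : (((n % p).toNat : ℕ) : ℤ) = n % p := Int.toNat_of_nonneg (Int.emod_nonneg _ hp0.ne')
  have h2 : (p : ℤ) ∣ n - n % p := Int.dvd_self_sub_emod
  rw [h1] at hi
  fin_cases i
  · simp only [Fin.zero_eta] at hi
    rw [pr0] at hi
    have : (p : ℤ) ∣ n := by
      have := dvd_add h2 hi
      rwa [sub_add_cancel] at this
    exact this.mul_right _
  · simp only [Fin.mk_one] at hi
    rw [pr1] at hi
    have : (p : ℤ) ∣ (t : ℤ) - m * n := by
      have e : (t : ℤ) - m * n = (t - m * (n % p)) - m * (n - n % p) := by ring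
      rw [e]
      exact dvd_sub hi (h2.mul_left _)
    exact this.mul_left _

theorem adm {t m : ℕ} (hm : 1 ≤ m) (h : NF t m) : Adm 2 (omP (pr t m)) := adm_omP _ (noFix h) (deg_sum hm)

open Classical in
theorem card_om {t m : ℕ} (h : NF t m) {p : ℕ} (hp : p.Prime) :
    (omP (pr t m) p).card = if p ∣ m * t then 1 else 2 := by
  have hp0 := hp.pos
  have hmem : ∀ n, n < p → (n ∈ omP (pr t m) p ↔ p ∣ n ∨ (p : ℤ) ∣ (t : ℤ) - m * n) := by
    intro n hn
    have := mem_om t m hp0 n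
    rwa [Nat.mod_eq_of_lt hn] at this
  have hlt : ∀ n ∈ omP (pr t m) p, n < p := by
    intro n hn
    unfold omP at hn
    exact mem_range.1 (mem_filter.1 hn).1
  have hpi : Prime (p : ℤ) := Nat.prime_iff_prime_int.1 hp
  split_ifs with hd
  · -- only the zero
    rw [card_eq_one]
    refine ⟨0, ?_⟩
    ext n
    rw [mem_singleton]
    constructor
    · intro hn
      have h1 := hlt n hn
      rcases (hmem n h1).1 hn with h2 | h2
      · exact Nat.eq_zero_of_dvd_of_lt h2 h1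
      · obtain ⟨n₀, hn₀⟩ := h p hp
        rcases (Nat.Prime.dvd_mul hp).1 hd with h3 | h3
        · exfalso
          apply hn₀
          have h3' : (p : ℤ) ∣ (m : ℤ) := by exact_mod_cast h3
          have h4 : (p : ℤ) ∣ (t : ℤ) := by
            have := dvd_add h2 (h3'.mul_right (n : ℤ))
            rwa [sub_add_cancel] at this
          exact (dvd_sub h4 (h3'.mul_right n₀)).mul_left _
        · have h3' : (p : ℤ) ∣ (t : ℤ) := by exact_mod_cast h3
          have h4 : (p : ℤ) ∣ (m : ℤ) * n := by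
            have := dvd_sub h3' h2
            rwa [sub_sub_cancel] at this
          rcases hpi.dvd_or_dvd h4 with h5 | h5
          · exfalso
            apply hn₀
            exact (dvd_sub h3' (h5.mul_right n₀)).mul_left _
          · exact Nat.eq_zero_of_dvd_of_lt (by exact_mod_cast h5) h1
    · rintro rfl
      exact (hmem 0 hp0).2 (Or.inl (dvd_zero _))
  · -- two zeros
    have hm : ¬ p ∣ m := fun h1 => hd (h1.mul_right t)
    have ht : ¬ p ∣ t := fun h1 => hd (h1.mul_left m)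
    have hcop : Nat.Coprime m p := (Nat.coprime_comm.1 ((Nat.Prime.coprime_iff_not_dvd hp).2 hm))
    obtain ⟨u, hu⟩ : ∃ u : ℕ, m * u ≡ t [MOD p] := by
      obtain ⟨v, hv⟩ := Nat.exists_mul_mod_eq_one_of_coprime hcop hp.one_lt
      refine ⟨v * t, ?_⟩
      have h1 : m * v ≡ 1 [MOD p] := by
        unfold Nat.ModEq
        rw [hv.2, Nat.mod_eq_of_lt hp.one_lt]
      calc m * (v * t) = (m * v) * t := by ring
        _ ≡ 1 * t [MOD p] := h1.mul_right t
        _ = t := one_mul t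
    have hu' : ∀ n : ℕ, (p : ℤ) ∣ (t : ℤ) - m * n ↔ n ≡ u [MOD p] := by
      intro n
      have e : (p : ℤ) ∣ (t : ℤ) - m * n ↔ m * n ≡ t [MOD p] := by
        rw [Nat.modEq_iff_dvd]
        push_cast
        rfl
      rw [e]
      constructor
      · intro h1
        have h2 : m * n ≡ m * u [MOD p] := h1.trans hu.symm
        exact Nat.ModEq.cancel_left_of_coprime (by rw [Nat.coprime_comm] at hcop; exact hcop) h2
      · intro h1
        exact (h1.mul_left m).trans hu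
    have hu0 : u % p ≠ 0 := by
      intro h0
      apply ht
      have h1 : p ∣ m * u := (Nat.dvd_of_mod_eq_zero h0).mul_left m
      exact (Nat.ModEq.dvd_iff hu (dvd_refl p)).1 h1
    have : omP (pr t m) p = {0, u % p} := by
      ext n
      rw [mem_insert, mem_singleton]
      constructor
      · intro hn
        have h1 := hlt n hn
        rcases (hmem n h1).1 hn with h2 | h2
        · left; exact Nat.eq_zero_of_dvd_of_lt h2 h1
        · right
          have := (hu' n).1 h2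
          unfold Nat.ModEq at this
          rwa [Nat.mod_eq_of_lt h1] at this
      · rintro (rfl | rfl)
        · exact (hmem 0 hp0).2 (Or.inl (dvd_zero _))
        · exact (hmem _ (Nat.mod_lt _ hp0)).2 (Or.inr ((hu' _).2 (Nat.mod_modEq u p)))
    rw [this, card_pair (Ne.symm hu0)]

/-- the class is open -/
def Op (t m q a : ℕ) : Prop := Nat.Coprime a q ∧ Int.gcd ((t : ℤ) - m * a) q = 1

theorem AD_iff {t m q a : ℕ} (hq : 1 ≤ q) : AD (omP (pr t m)) q a ↔ Op t m q a := by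
  unfold AD Op
  constructor
  · intro h
    constructor
    · rw [Nat.coprime_iff_gcd_eq_one]
      by_contra hne
      obtain ⟨p, hp, hpd⟩ := Nat.exists_prime_and_dvd hne
      have h1 := h p (Nat.mem_primeFactors.2 ⟨hp, hpd.trans (Nat.gcd_dvd_right _ _), by omega⟩)
      rw [mem_om t m hp.pos] at h1
      exact h1 (Or.inl (hpd.trans (Nat.gcd_dvd_left _ _)))
    · by_contra hne
      obtain ⟨p, hp, hpd⟩ := Nat.exists_prime_and_dvd hne
      have h2 : (p : ℤ) ∣ (q : ℤ) := (Int.natCast_dvd_natCast.2 hpd).trans (Int.gcd_dvd_right _ _)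
      have h1 := h p (Nat.mem_primeFactors.2 ⟨hp, by exact_mod_cast h2, by omega⟩)
      rw [mem_om t m hp.pos] at h1
      exact h1 (Or.inr ((Int.natCast_dvd_natCast.2 hpd).trans (Int.gcd_dvd_left _ _)))
  · rintro ⟨h1, h2⟩ p hp h3
    have hpp := Nat.prime_of_mem_primeFactors hp
    have hpq := Nat.dvd_of_mem_primeFactors hp
    rw [mem_om t m hpp.pos] at h3
    rcases h3 with h3 | h3
    · have := Nat.dvd_gcd h3 hpq
      rw [Nat.coprime_iff_gcd_eq_one.1 h1] at this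
      exact hpp.one_lt.ne' (Nat.dvd_one.1 this)
    · have := Int.dvd_coe_gcd h3 (by exact_mod_cast hpq : (p : ℤ) ∣ (q : ℤ))
      rw [h2] at this
      have h4 : p ∣ 1 := by exact_mod_cast this
      exact hpp.one_lt.ne' (Nat.dvd_one.1 h4)

/-! ### the sieve product and the singular series -/

open Pool.Agent.H560R3.GB (C₂)

theorem part_ge (z : ℕ) : (1 : ℝ) / 2 ≤ ∏ p ∈ (Icc 3 z).filter Nat.Prime, (1 - 1 / ((p : ℝ) - 1) ^ 2) := by
  have h1 : ∀ n ∈ Icc 3 z, 0 ≤ 1 - 1 / ((n : ℝ) - 1) ^ 2 ∧ 1 - 1 / ((n : ℝ) - 1) ^ 2 ≤ 1 := by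
    intro n hn
    rw [mem_Icc] at hn
    have h3 : (3 : ℝ) ≤ n := by exact_mod_cast hn.1
    constructor
    · rw [sub_nonneg, div_le_one (by nlinarith)]
      nlinarith
    · have : 0 ≤ 1 / ((n : ℝ) - 1) ^ 2 := by positivity
      linarith
  have h2 : ∏ n ∈ Icc 3 z, (1 - 1 / ((n : ℝ) - 1) ^ 2) ≤ ∏ p ∈ (Icc 3 z).filter Nat.Prime, (1 - 1 / ((p : ℝ) - 1) ^ 2) := by
    rw [← prod_filter_mul_prod_filter_not (Icc 3 z) Nat.Prime]
    apply mul_le_of_le_one_right
    · exact prod_nonneg fun p hp => (h1 p (mem_filter.1 hp).1).1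
    · exact prod_le_one (fun p hp => (h1 p (mem_filter.1 hp).1).1) (fun p hp => (h1 p (mem_filter.1 hp).1).2)
  refine le_trans ?_ h2
  rcases Nat.lt_or_ge z 3 with hz | hz
  · rw [Icc_eq_empty_of_lt hz, prod_empty]
    norm_num
  · have h3 : ∀ z : ℕ, 3 ≤ z → ∏ n ∈ Icc 3 z, (1 - 1 / ((n : ℝ) - 1) ^ 2) = (z : ℝ) / (2 * ((z : ℝ) - 1)) := by
      intro z hz
      induction z, hz using Nat.le_induction with
      | base => norm_num
      | succ z hz ih =>
        have hz3 : (3 : ℝ) ≤ z := by exact_mod_cast hz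
        rw [prod_Icc_succ_top (by omega), ih]
        push_cast
        have e1 : (z : ℝ) - 1 ≠ 0 := by linarith
        have e2 : (z : ℝ) ≠ 0 := by linarith
        have e3 : (z : ℝ) + 1 - 1 = z := by ring
        rw [e3]
        field_simp
        ring
    rw [h3 z hz]
    have hz3 : (3 : ℝ) ≤ z := by exact_mod_cast hz
    rw [div_le_div_iff₀ (by norm_num) (by linarith)]
    linarith

theorem part_le (z : ℕ) : ∏ p ∈ (Icc 3 z).filter Nat.Prime, (1 - 1 / ((p : ℝ) - 1) ^ 2) ≤ 1 := by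
  apply prod_le_one
  · intro p hp
    rw [mem_filter, mem_Icc] at hp
    have h3 : (3 : ℝ) ≤ p := by exact_mod_cast hp.1.1
    rw [sub_nonneg, div_le_one (by nlinarith)]
    nlinarith
  · intro p _
    have : 0 ≤ 1 / ((p : ℝ) - 1) ^ 2 := by positivity
    linarith

theorem C₂_ge : (1 : ℝ) / 2 ≤ C₂ := le_ciInf part_ge

theorem C₂_le (z : ℕ) : C₂ ≤ ∏ p ∈ (Icc 3 z).filter Nat.Prime, (1 - 1 / ((p : ℝ) - 1) ^ 2) :=
  ciInf_le ⟨1 / 2, by rintro _ ⟨z, rfl⟩; exact part_ge z⟩ z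

/-- the local product -/
noncomputable def LP (n : ℕ) : ℝ := ∏ p ∈ n.primeFactors.filter (fun p => 2 < p), ((p : ℝ) - 1) / ((p : ℝ) - 2)

theorem LP_ge (n : ℕ) : 1 ≤ LP n := by
  unfold LP
  have := Finset.prod_le_prod (s := n.primeFactors.filter (fun p => 2 < p)) (f := fun _ => (1 : ℝ))
    (g := fun p : ℕ => ((p : ℝ) - 1) / ((p : ℝ) - 2)) (fun _ _ => zero_le_one) (fun p hp => by
      rw [mem_filter] at hp
      have h3 : (3 : ℝ) ≤ p := by exact_mod_cast hp.2
      rw [le_div_iff₀ (by linarith)]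
      linarith)
  simpa using this

theorem VV_pr {t m : ℕ} (h : NF t m) (hm : 1 ≤ m) (ht : 2 ≤ t) (hmt : m ≤ t) :
    VV (omP (pr t m)) t = Pool.Agent.H318R2.Cr.V t ^ 2 *
      (2 * ∏ p ∈ (Icc 3 t).filter Nat.Prime, (1 - 1 / ((p : ℝ) - 1) ^ 2)) * LP (m * t) := by
  classical
  have hPR : PR t = insert 2 ((Icc 3 t).filter Nat.Prime) := by
    ext p
    rw [mem_PR, mem_insert, mem_filter, mem_Icc]
    constructor
    · rintro ⟨h1, h2⟩
      have := h1.two_le
      by_cases h3 : p = 2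
      · exact Or.inl h3
      · exact Or.inr ⟨⟨by omega, h2⟩, h1⟩
    · rintro (rfl | ⟨h1, h2⟩)
      · exact ⟨Nat.prime_two, ht⟩
      · exact ⟨h2, h1.2⟩
  have hV : Pool.Agent.H318R2.Cr.V t = ∏ p ∈ PR t, (1 - 1 / (p : ℝ)) := by
    unfold Pool.Agent.H318R2.Cr.V
    congr 1
  have h2n : (2 : ℕ) ∉ (Icc 3 t).filter Nat.Prime := by simp
  have hfac : ∀ p ∈ PR t, (1 - ((omP (pr t m) p).card : ℝ) / p) = (1 - 1 / (p : ℝ)) ^ 2 *
      (if p = 2 then 2 else (1 - 1 / ((p : ℝ) - 1) ^ 2) * (if p ∣ m * t then ((p : ℝ) - 1) / (p - 2) else 1)) := by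
    intro p hp
    rw [mem_PR] at hp
    rw [card_om h hp.1]
    have hp0 : (0 : ℝ) < p := by exact_mod_cast hp.1.pos
    by_cases h2 : p = 2
    · subst h2
      have hev : 2 ∣ m * t := by
        by_contra hcon
        have hm2 : ¬ 2 ∣ m := fun h1 => hcon (h1.mul_right t)
        have ht2 : ¬ 2 ∣ t := fun h1 => hcon (h1.mul_left m)
        obtain ⟨n, hn⟩ := h 2 Nat.prime_two
        apply hn
        obtain ⟨m', hm'⟩ : ∃ m' : ℤ, (m : ℤ) = 2 * m' + 1 := ⟨(m : ℤ) / 2, by omega⟩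
        obtain ⟨t', ht'⟩ : ∃ t' : ℤ, (t : ℤ) = 2 * t' + 1 := ⟨(t : ℤ) / 2, by omega⟩
        rcases Int.even_or_odd' n with ⟨j, hj | hj⟩
        · exact Dvd.dvd.mul_right ⟨j, by push_cast; linarith⟩ _
        · apply Dvd.dvd.mul_left
          refine ⟨t' - (2 * m' * j + m' + j), ?_⟩
          rw [hm', ht', hj]
          push_cast
          ring
      rw [if_pos hev, if_pos rfl]
      norm_num
    · rw [if_neg h2]
      have h3 : (3 : ℝ) ≤ p := by
        have := hp.1.two_le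
        exact_mod_cast (by omega : 3 ≤ p)
      have e1 : (p : ℝ) - 1 ≠ 0 := by linarith
      have e2 : (p : ℝ) - 2 ≠ 0 := by linarith
      have e0 : (p : ℝ) ≠ 0 := hp0.ne'
      split_ifs with hd
      · push_cast
        field_simp
        ring
      · push_cast
        field_simp
        ring
  unfold VV
  rw [prod_congr rfl hfac, prod_mul_distrib, prod_pow, ← hV, mul_assoc]
  congr 1
  rw [hPR, prod_insert h2n, if_pos rfl, mul_assoc]
  congr 1
  have h4 : ∀ p ∈ (Icc 3 t).filter Nat.Prime, (if p = 2 then (2 : ℝ) else (1 - 1 / ((p : ℝ) - 1) ^ 2) * (if p ∣ m * t then ((p : ℝ) - 1) / (p - 2) else 1)) =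
      (1 - 1 / ((p : ℝ) - 1) ^ 2) * (if p ∣ m * t then ((p : ℝ) - 1) / (p - 2) else 1) := by
    intro p hp
    rw [mem_filter, mem_Icc] at hp
    rw [if_neg (by omega)]
  rw [prod_congr rfl h4, prod_mul_distrib]
  congr 1
  rw [← prod_filter]
  unfold LP
  apply prod_congr _ (fun _ _ => rfl)
  ext p
  rw [mem_filter, mem_filter, mem_Icc, mem_filter, Nat.mem_primeFactors]
  constructor
  · rintro ⟨⟨⟨h5, h6⟩, h7⟩, h8⟩
    exact ⟨⟨h7, h8, by positivity⟩, by omega⟩
  · rintro ⟨⟨h7, h8, _⟩, h9⟩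
    refine ⟨⟨⟨by omega, ?_⟩, h7⟩, h8⟩
    rcases (Nat.Prime.dvd_mul h7).1 h8 with h10 | h10
    · exact (Nat.le_of_dvd (by omega) h10).trans hmt
    · exact Nat.le_of_dvd (by omega) h10

/-- the main term -/
noncomputable def mainT (t m : ℕ) : ℝ := 2 * C₂ * LP (m * t) * ((t : ℝ) / m) / Real.log t ^ 2

theorem mainT_pos {t m : ℕ} (hm : 1 ≤ m) (ht : 2 ≤ t) : 0 < mainT t m := by
  unfold mainT
  have h1 := C₂_ge
  have h2 := LP_ge (m * t)
  have h3 : 0 < Real.log t := Real.log_pos (by exact_mod_cast (by omega : 1 < t))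
  have h4 : (0 : ℝ) < t := by exact_mod_cast (by omega : 0 < t)
  have h5 : (0 : ℝ) < m := by exact_mod_cast hm
  positivity

/-- the expected order and the main term -/
theorem order_bounds : ∃ c : ℝ, 0 < c ∧ ∀ t m : ℕ, 1 ≤ m → 2 ≤ t → m ≤ t → NF t m →
    c * mainT t m ≤ t * VV (omP (pr t m)) t ∧ c * (t * VV (omP (pr t m)) t) ≤ m * mainT t m := by
  obtain ⟨c₁, c₂, h1, h2, h⟩ := Pool.Agent.H318R2.Cr.cz_bounds
  have h2' : 0 < c₂ := h1.trans_le h2
  refine ⟨min (c₁ ^ 2) (1 / (2 * c₂ ^ 2)), lt_min (by positivity) (by positivity), ?_⟩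
  intro t m hm ht hmt hNF
  obtain ⟨h3, h4⟩ := h t ht
  have hlog : 0 < Real.log t := Real.log_pos (by exact_mod_cast (by omega : 1 < t))
  have ht0 : (0 : ℝ) < t := by exact_mod_cast (by omega : 0 < t)
  have hm0 : (0 : ℝ) < m := by exact_mod_cast hm
  have hm1 : (1 : ℝ) ≤ m := by exact_mod_cast hm
  have hVpos := Pool.Agent.H318R2.Cr.V_pos t
  rw [VV_pr hNF hm ht hmt]
  unfold mainT
  obtain ⟨V, hV⟩ : ∃ V, V = Pool.Agent.H318R2.Cr.V t := ⟨_, rfl⟩
  obtain ⟨S, hS⟩ : ∃ S, S = ∏ p ∈ (Icc 3 t).filter Nat.Prime, (1 - 1 / ((p : ℝ) - 1) ^ 2) := ⟨_, rfl⟩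
  obtain ⟨Z, hZ⟩ : ∃ Z, Z = LP (m * t) := ⟨_, rfl⟩
  obtain ⟨L, hL⟩ : ∃ L, L = Real.log t := ⟨_, rfl⟩
  have s1 := part_le t
  have s2 := C₂_le t
  have s3 := C₂_ge
  have z1 := LP_ge (m * t)
  rw [← hS] at s1 s2
  rw [← hZ] at z1
  rw [← hV, ← hL] at h3 h4
  rw [← hV] at hVpos
  rw [← hL] at hlog
  rw [← hV, ← hS, ← hZ, ← hL]
  obtain ⟨c, hc⟩ : ∃ c, c = C₂ := ⟨_, rfl⟩
  rw [← hc] at s2 s3 ⊢
  have hc0 : 0 < c := by linarith
  constructor
  · have k1 : c₁ ^ 2 ≤ (V * L) ^ 2 := pow_le_pow_left₀ h1.le h3 2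
    have k2 : min (c₁ ^ 2) (1 / (2 * c₂ ^ 2)) ≤ (V * L) ^ 2 := (min_le_left _ _).trans k1
    have k3 : 2 * c * Z * ((t : ℝ) / m) / L ^ 2 ≤ 2 * S * Z * t / L ^ 2 := by
      apply div_le_div_of_nonneg_right _ (by positivity)
      have : (t : ℝ) / m ≤ t := div_le_self ht0.le hm1
      calc 2 * c * Z * ((t : ℝ) / m) ≤ 2 * c * Z * t := mul_le_mul_of_nonneg_left this (by positivity)
        _ ≤ 2 * S * Z * t := by
          have : c * (Z * t) ≤ S * (Z * t) := mul_le_mul_of_nonneg_right s2 (by positivity)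
          linarith
    calc min (c₁ ^ 2) (1 / (2 * c₂ ^ 2)) * (2 * c * Z * ((t : ℝ) / m) / L ^ 2) ≤
          (V * L) ^ 2 * (2 * S * Z * t / L ^ 2) := by
          apply mul_le_mul k2 k3 (by positivity) (by positivity)
      _ = t * (V ^ 2 * (2 * S) * Z) := by
          field_simp
  · have k1 : (V * L) ^ 2 ≤ c₂ ^ 2 := pow_le_pow_left₀ (by positivity) h4 2
    have e1 : (t : ℝ) * (V ^ 2 * (2 * S) * Z) = (V * L) ^ 2 * (2 * S * Z * t / L ^ 2) := by
      field_simp
    have hS0 : 0 < S := by linarith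
    rw [e1]
    have k3 : (V * L) ^ 2 * (2 * S * Z * t / L ^ 2) ≤ c₂ ^ 2 * (2 * S * Z * t / L ^ 2) :=
      mul_le_mul_of_nonneg_right k1 (by positivity)
    calc min (c₁ ^ 2) (1 / (2 * c₂ ^ 2)) * ((V * L) ^ 2 * (2 * S * Z * t / L ^ 2)) ≤
          (1 / (2 * c₂ ^ 2)) * (c₂ ^ 2 * (2 * S * Z * t / L ^ 2)) :=
          mul_le_mul (min_le_right _ _) k3 (by positivity) (by positivity)
      _ = S * (Z * t / L ^ 2) := by
          field_simp
      _ ≤ 1 * (Z * t / L ^ 2) := mul_le_mul_of_nonneg_right s1 (by positivity)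
      _ ≤ (2 * c) * (Z * t / L ^ 2) := mul_le_mul_of_nonneg_right (by linarith) (by positivity)
      _ = m * (2 * c * Z * ((t : ℝ) / m) / L ^ 2) := by
          field_simp

/-! ### the logarithms -/

theorem ratio_log (ε : ℝ) (hε : 0 < ε) (cm : ℕ) : ∃ T₀ : ℕ, ∀ t : ℕ, T₀ ≤ t → ∀ c X : ℕ, 1 ≤ c → c ≤ cm →
    (t : ℝ) / c - 3 ≤ X → (X : ℝ) ≤ t / c →
    |X * c / Real.log X ^ 2 - t / Real.log t ^ 2| ≤ ε * (t / Real.log t ^ 2) := by
  -- the condition on the logarithm
  have hlim : Tendsto (fun t : ℕ => (Real.log t / (Real.log t - Real.log (2 * cm + 2))) ^ 2) atTop (𝓝 (1 ^ 2)) := by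
    apply Tendsto.pow
    have h1 : Tendsto (fun t : ℕ => Real.log (t : ℝ)) atTop atTop := Real.tendsto_log_atTop.comp tendsto_natCast_atTop_atTop
    have h2 : Tendsto (fun t : ℕ => Real.log (t : ℝ) - Real.log (2 * cm + 2)) atTop atTop := tendsto_atTop_add_const_right _ _ h1
    have h3 : Tendsto (fun t : ℕ => 1 + Real.log (2 * cm + 2) / (Real.log (t : ℝ) - Real.log (2 * cm + 2))) atTop (𝓝 (1 + 0)) := by
      apply Tendsto.add tendsto_const_nhds
      exact Tendsto.div_atTop tendsto_const_nhds h2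
    rw [add_zero] at h3
    refine h3.congr' ?_
    filter_upwards [h2.eventually_gt_atTop 0] with t ht
    have ht' := ht.ne'
    rw [one_add_div ht', sub_add_cancel]
  have hev : ∀ᶠ t : ℕ in atTop, (Real.log t / (Real.log t - Real.log (2 * cm + 2))) ^ 2 ≤ 1 + ε := by
    have : (1 : ℝ) ^ 2 < 1 + ε := by linarith
    exact (hlim.eventually_lt_const this).mono fun _ h => h.le
  have hev2 : ∀ᶠ t : ℕ in atTop, Real.log (2 * cm + 2) + 1 ≤ Real.log t :=
    (Real.tendsto_log_atTop.comp tendsto_natCast_atTop_atTop).eventually_ge_atTop _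
  have hev3 : ∀ᶠ t : ℕ in atTop, (6 * cm / ε + 12 * cm + 12 : ℝ) ≤ t := tendsto_natCast_atTop_atTop.eventually_ge_atTop _
  obtain ⟨T₀, hT⟩ := eventually_atTop.1 (hev.and (hev2.and hev3))
  refine ⟨T₀, fun t ht c X hc hcm hX1 hX2 => ?_⟩
  obtain ⟨h1, h2, h3⟩ := hT t ht
  have hc0 : (0 : ℝ) < c := by exact_mod_cast hc
  have hc1 : (1 : ℝ) ≤ c := by exact_mod_cast hc
  have hcm' : (c : ℝ) ≤ cm := by exact_mod_cast hcm
  have hcm0 : (0 : ℝ) < cm := by linarith
  have ht0 : (0 : ℝ) < t := by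
    have : 0 < 6 * (cm : ℝ) / ε := by positivity
    linarith
  have ht12 : 12 * (cm : ℝ) ≤ t := by
    have : 0 < 6 * (cm : ℝ) / ε := by positivity
    linarith
  have htε : 6 * (cm : ℝ) / ε ≤ t := by linarith
  have hu : (t : ℝ) / (2 * cm + 2) ≤ X := by
    have k1 : (12 : ℝ) ≤ t / c := by
      rw [le_div_iff₀ hc0]
      nlinarith
    have k2 : (t : ℝ) / (2 * cm + 2) ≤ t / c / 2 := by
      rw [div_div]
      apply div_le_div_of_nonneg_left ht0.le (by positivity)
      linarith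
    linarith
  have hX0 : (0 : ℝ) < X := lt_of_lt_of_le (by positivity) hu
  have hlogt : 1 ≤ Real.log t - Real.log (2 * cm + 2) := by linarith
  have hlog2 : 0 < Real.log (2 * cm + 2) := Real.log_pos (by linarith)
  have hlt : 0 < Real.log t := by linarith
  have hlX1 : Real.log t - Real.log (2 * cm + 2) ≤ Real.log X := by
    rw [← Real.log_div ht0.ne' (by positivity)]
    exact Real.log_le_log (by positivity) hu
  have hlX2 : Real.log X ≤ Real.log t := by
    apply Real.log_le_log hX0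
    exact hX2.trans (div_le_self ht0.le hc1)
  have hlX0 : 0 < Real.log X := by linarith
  have hXc2 : (X : ℝ) * c ≤ t := by
    rwa [le_div_iff₀ hc0] at hX2
  have hXc1 : (1 - ε) * t ≤ X * c := by
    have k1 : (t : ℝ) - 3 * c ≤ X * c := by
      have := mul_le_mul_of_nonneg_right hX1 hc0.le
      rw [sub_mul, div_mul_cancel₀ _ hc0.ne'] at this
      exact this
    have k2 : 3 * (c : ℝ) ≤ ε * t := by
      have : 6 * (cm : ℝ) ≤ ε * t := by
        rw [div_le_iff₀ hε] at htε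
        linarith
      linarith
    linarith
  have hsq : 0 < Real.log t ^ 2 := by positivity
  have hsqX : 0 < Real.log X ^ 2 := by positivity
  rw [abs_le]
  constructor
  · -- the lower bound
    have k1 : (1 - ε) * (t / Real.log t ^ 2) ≤ X * c / Real.log X ^ 2 := by
      calc (1 - ε) * (t / Real.log t ^ 2) = ((1 - ε) * t) / Real.log t ^ 2 := by ring
        _ ≤ (X * c) / Real.log t ^ 2 := div_le_div_of_nonneg_right hXc1 hsq.le
        _ ≤ X * c / Real.log X ^ 2 := by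
            apply div_le_div_of_nonneg_left (by positivity) hsqX
            exact pow_le_pow_left₀ hlX0.le hlX2 2
    linarith
  · have k1 : X * c / Real.log X ^ 2 ≤ (1 + ε) * (t / Real.log t ^ 2) := by
      calc X * c / Real.log X ^ 2 ≤ t / Real.log X ^ 2 := div_le_div_of_nonneg_right hXc2 hsqX.le
        _ ≤ t / (Real.log t - Real.log (2 * cm + 2)) ^ 2 := by
            apply div_le_div_of_nonneg_left ht0.le (by positivity)
            exact pow_le_pow_left₀ (by linarith) hlX1 2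
        _ = (Real.log t / (Real.log t - Real.log (2 * cm + 2))) ^ 2 * (t / Real.log t ^ 2) := by
            field_simp
        _ ≤ _ := mul_le_mul_of_nonneg_right h1 (by positivity)
    linarith

end Pool.Agent.H90.GB
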